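import Mathlib

namespace Pool.Agent.Results.MP_a6de22_an.Fail

open Matrix Polynomial

/-- `X` has a normal completion of size `m + k`. -/
def HasCompl {m : ℕ} (X : Matrix (Fin m) (Fin m) ℂ) (k : ℕ) : Prop :=
  ∃ N : Matrix (Fin (m + k)) (Fin (m + k)) ℂ, N * Nᴴ = Nᴴ * N ∧
    ∀ i j, N (Fin.castAdd k i) (Fin.castAdd k j) = X i j

/-- the normal defect. -/
noncomputable def nd {m : ℕ} (X : Matrix (Fin m) (Fin m) ℂ) : ℕ := sInf {k | HasCompl X k}

/-- number of positive eigenvalues (with multiplicity) of a Hermitian matrix. -/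
noncomputable def ipos {m : ℕ} (M : Matrix (Fin m) (Fin m) ℂ) : ℕ :=
  (M.charpoly.roots.filter fun z => 0 < z.re).card

/-- number of negative eigenvalues (with multiplicity) of a Hermitian matrix. -/
noncomputable def ineg {m : ℕ} (M : Matrix (Fin m) (Fin m) ℂ) : ℕ :=
  (M.charpoly.roots.filter fun z => z.re < 0).card

noncomputable def eps {m : ℕ} (X : Matrix (Fin m) (Fin m) ℂ) : ℕ :=
  max (ipos (X * Xᴴ - Xᴴ * X)) (ineg (X * Xᴴ - Xᴴ * X))

/-- the cyclic weighted shift `A`. -/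
def cyc {n : ℕ} (a : Fin n → ℂ) : Matrix (Fin n) (Fin n) ℂ :=
  fun i j => if (i.val + 1) % n = j.val then a i else 0

/-- the truncated weighted shift of size `n + 1`. -/
def trunc {n : ℕ} (a : Fin n → ℂ) : Matrix (Fin (n + 1)) (Fin (n + 1)) ℂ :=
  fun i j => if h : i.val < n then (if i.val + 1 = j.val then a ⟨i.val, h⟩ else 0) else 0

def a0 : Fin 4 → ℂ := ![9, 15, 9, 9]

theorem cyc_eq : cyc a0 = !![0, 9, 0, 0; 0, 0, 15, 0; 0, 0, 0, 9; 9, 0, 0, 0] := by
  ext i j
  fin_cases i <;> fin_cases j <;> simp [cyc, a0]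

theorem trunc_eq : trunc a0 =
    !![0, 9, 0, 0, 0; 0, 0, 15, 0, 0; 0, 0, 0, 9, 0; 0, 0, 0, 0, 9; 0, 0, 0, 0, 0] := by
  ext i j
  fin_cases i <;> fin_cases j <;> simp [trunc, a0]

theorem roots_diag {m : ℕ} (d : Fin m → ℂ) :
    (Matrix.diagonal d).charpoly.roots = Finset.univ.val.map d := by
  rw [Matrix.charpoly_diagonal]
  have : ∏ i, (X - C (d i)) = ((Finset.univ.val.map d).map fun a => X - C a).prod := by
    rw [Multiset.map_map]; rfl
  rw [this, roots_multiset_prod_X_sub_C]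

theorem card_filter_diag {m : ℕ} (d : Fin m → ℂ) (p : ℂ → Prop) [DecidablePred p] :
    ((Matrix.diagonal d).charpoly.roots.filter p).card = ∑ i, if p (d i) then 1 else 0 := by
  rw [roots_diag, Multiset.filter_map, Multiset.card_map, ← Finset.card_filter]
  rfl

theorem comm_cyc : cyc a0 * (cyc a0)ᴴ - (cyc a0)ᴴ * cyc a0 =
    Matrix.diagonal ![0, 144, -144, 0] := by
  rw [cyc_eq]
  ext i j
  rw [Matrix.sub_apply, Matrix.mul_apply, Matrix.mul_apply]
  simp only [Matrix.conjTranspose_apply]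
  fin_cases i <;> fin_cases j <;>
    simp [Fin.sum_univ_succ, Matrix.diagonal, map_ofNat] <;> norm_num

theorem comm_trunc : trunc a0 * (trunc a0)ᴴ - (trunc a0)ᴴ * trunc a0 =
    Matrix.diagonal ![81, 144, -144, 0, -81] := by
  rw [trunc_eq]
  ext i j
  rw [Matrix.sub_apply, Matrix.mul_apply, Matrix.mul_apply]
  simp only [Matrix.conjTranspose_apply]
  fin_cases i <;> fin_cases j <;>
    simp [Fin.sum_univ_succ, Matrix.diagonal, map_ofNat] <;> norm_num

theorem eps_cyc : eps (cyc a0) = 1 := by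
  unfold eps ipos ineg
  rw [comm_cyc, card_filter_diag, card_filter_diag]
  simp only [Fin.sum_univ_succ, Fin.sum_univ_zero, Matrix.cons_val_zero, Matrix.cons_val_succ]
  norm_num

theorem eps_trunc : eps (trunc a0) = 2 := by
  unfold eps ipos ineg
  rw [comm_trunc, card_filter_diag, card_filter_diag]
  simp only [Fin.sum_univ_succ, Fin.sum_univ_zero, Matrix.cons_val_zero, Matrix.cons_val_succ]
  norm_num

def N6 : Matrix (Fin 6) (Fin 6) ℂ :=
  !![0, 9, 0, 0, 12, 0; 0, 0, 15, 0, 0, 0; 0, 0, 0, 9, 0, 12; 9, 0, 0, 0, 0, 0;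
     0, 12, 0, 0, -9, 0; 12, 0, 0, 0, 0, 0]

def N7 : Matrix (Fin 7) (Fin 7) ℂ :=
  !![0, 9, 0, 0, 0, 0, 0; 0, 0, 15, 0, 0, 16, 0; 0, 0, 0, 9, 0, 0, 12; 0, 0, 0, 0, 9, 0, 0;
     0, 0, 0, 0, 0, 15, 0; 9, 0, 0, 0, 0, 0, 20; 0, 20, 0, 0, 12, 0, 0]

theorem c2 : HasCompl (cyc a0) 2 := by
  refine ⟨N6, ?_, ?_⟩
  · ext i j
    fin_cases i <;> fin_cases j <;>
      simp [N6, Matrix.mul_apply, Fin.sum_univ_succ, map_ofNat] <;> norm_num
  · rw [cyc_eq]
    intro i j
    fin_cases i <;> fin_cases j <;> rfl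

theorem t2 : HasCompl (trunc a0) 2 := by
  refine ⟨N7, ?_, ?_⟩
  · ext i j
    fin_cases i <;> fin_cases j <;>
      simp [N7, Matrix.mul_apply, Fin.sum_univ_succ, map_ofNat] <;> norm_num
  · rw [trunc_eq]
    intro i j
    fin_cases i <;> fin_cases j <;> rfl

theorem c0 : ¬ HasCompl (cyc a0) 0 := by
  rintro ⟨N, hN, h⟩
  have e : N = cyc a0 := by
    ext i j; exact h i j
  have h1 := comm_cyc
  rw [← e, hN, sub_self] at h1
  have := congrFun (congrFun h1 1) 1
  simp at this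

theorem c1 : ¬ HasCompl (cyc a0) 1 := by
  rintro ⟨N, hN, h⟩
  rw [cyc_eq] at h
  change Matrix (Fin 5) (Fin 5) ℂ at N
  have h00 : N 0 0 = 0 := h 0 0
  have h01 : N 0 1 = 9 := h 0 1
  have h02 : N 0 2 = 0 := h 0 2
  have h03 : N 0 3 = 0 := h 0 3
  have h10 : N 1 0 = 0 := h 1 0
  have h11 : N 1 1 = 0 := h 1 1
  have h12 : N 1 2 = 15 := h 1 2
  have h13 : N 1 3 = 0 := h 1 3
  have h20 : N 2 0 = 0 := h 2 0
  have h21 : N 2 1 = 0 := h 2 1
  have h22 : N 2 2 = 0 := h 2 2
  have h23 : N 2 3 = 9 := h 2 3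
  have h30 : N 3 0 = 9 := h 3 0
  have h31 : N 3 1 = 0 := h 3 1
  have h32 : N 3 2 = 0 := h 3 2
  have h33 : N 3 3 = 0 := h 3 3
  have E : ∀ i j : Fin 5, ∑ l, N i l * star (N j l) = ∑ l, star (N l i) * N l j := by
    intro i j
    have := congrFun (congrFun hN i) j
    simpa [Matrix.mul_apply] using this
  have e00 := E 0 0
  have e11 := E 1 1
  have e33 := E 3 3
  have e01 := E 0 1
  have e31 := E 3 1
  have e04 := E 0 4
  simp only [Fin.sum_univ_five, h00, h01, h02, h03, h10, h11, h12, h13, h20, h21, h22, h23, h30,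
    h31, h32, h33, star_zero, mul_zero, zero_mul, add_zero, zero_add, star_ofNat] at e00 e11 e33 e01 e31 e04
  set u0 := N 0 4
  set u1 := N 1 4
  set u3 := N 3 4
  set v0 := N 4 0
  set v1 := N 4 1
  set v3 := N 4 3
  have s01 := congrArg star e01
  have s31 := congrArg star e31
  simp only [star_mul', star_star] at s01 s31
  have z0 : star v0 * v0 = 0 := by
    have : 144 * (star v0 * v0) = 0 := by
      linear_combination (star v0 * v0) * e11 + (u1 * star u1) * e00 - (star u0 * u1) * e01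
        - (star v0 * v1) * s01
    simpa using this
  have z3 : star v3 * v3 = 0 := by
    have : 144 * (star v3 * v3) = 0 := by
      linear_combination (star v3 * v3) * e11 + (u1 * star u1) * e33 - (star u3 * u1) * e31
        - (star v3 * v1) * s31
    simpa using this
  have hv0 : v0 = 0 := by simpa using z0
  have hv3 : v3 = 0 := by simpa using z3
  have hu0 : u0 = 0 := by
    have : u0 * star u0 = 0 := by linear_combination e00 + z0
    simpa using this
  have hu3 : u3 = 0 := by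
    have : u3 * star u3 = 0 := by linear_combination e33 + z3
    simpa using this
  have hv1 : star v1 = 0 := by
    rw [hu0, hu3, hv0] at e04
    simpa using e04
  rw [hv1] at e11
  have := congrArg Complex.re e11
  simp at this
  nlinarith [mul_self_nonneg u1.re, mul_self_nonneg u1.im]

theorem nd_cyc : nd (cyc a0) = 2 := by
  apply le_antisymm (Nat.sInf_le c2)
  have hm : HasCompl (cyc a0) (nd (cyc a0)) := Nat.sInf_mem (s := {k | HasCompl (cyc a0) k}) ⟨2, c2⟩
  change 2 ≤ nd (cyc a0)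
  by_contra hlt
  have : nd (cyc a0) = 0 ∨ nd (cyc a0) = 1 := by omega
  rcases this with e | e <;> rw [e] at hm
  · exact c0 hm
  · exact c1 hm

theorem result : ¬ ∀ n : ℕ, 4 ≤ n → ∀ a : Fin n → ℂ,
    nd (cyc a) = eps (cyc a) + 1 → nd (trunc a) = eps (trunc a) + 1 := by
  intro h
  have h1 := h 4 le_rfl a0 (by rw [nd_cyc, eps_cyc])
  have h2 : nd (trunc a0) ≤ 2 := Nat.sInf_le t2
  rw [eps_trunc] at h1
  omega

end Pool.Agent.Results.MP_a6de22_an.Fail
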